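import Pool.Agent.helper57.PP.Spec

/-!
# Project pp (MP_974a61_co): part DIST
-/

set_option autoImplicit false

namespace Pool.Agent.helper57.PP

open Finset

theorem DIST_pair {W : Type} [DecidableEq W] {a b c d : W}
    (h : ({a, b} : Finset W) = {c, d}) : (a = c ∧ b = d) ∨ (a = d ∧ b = c) := by
  have h' : (({a, b} : Finset W) : Set W) = (({c, d} : Finset W) : Set W) := by rw [h]
  rw [Finset.coe_pair, Finset.coe_pair] at h'
  exact Set.pair_eq_pair_iff.1 h'

theorem DIST : DIST_stmt := by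
  intro W _ m p A L R U ρ tm c1 c0 hS
  have hL : ∀ x ∈ vs A, (∀ i ≤ m, x ≠ p i) → (∀ i ≤ m, L x ≠ p i) → tm (L x) < tm x := by
    intro x hx hb hc
    obtain ⟨_, _, _, h | h⟩ := hS.l x hx hb
    · obtain ⟨i, hi, h⟩ := h
      exact absurd h (hc i hi)
    · exact h
  have hR : ∀ x ∈ vs A, (∀ i ≤ m, x ≠ p i) → (∀ i ≤ m, R x ≠ p i) → tm (R x) < tm x := by
    intro x hx hb hc
    obtain ⟨_, _, h | h⟩ := hS.r x hx hb
    · obtain ⟨i, hi, h⟩ := h
      exact absurd h (hc i hi)
    · exact h
  have hU : ∀ y ∈ vs A, (∀ i, m ≤ i → i ≤ 2 * m → y ≠ p i) → (∀ i ≤ m, y ≠ p i) →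
      tm y < tm (U y) := by
    intro y hy hb hc
    obtain ⟨_, _, _, h | h, _⟩ := hS.u y hy hb
    · obtain ⟨i, hi, h⟩ := h
      exact absurd h (hc i hi)
    · exact h
  refine ⟨?_, ?_, ?_⟩
  · intro x hx x' hx' hb hb'
    refine ⟨fun h => ?_, fun h => ?_, fun h => ?_⟩
    · rcases DIST_pair h with ⟨h1, _⟩ | ⟨h1, h2⟩
      · exact h1
      · exfalso
        have e1 := hL x hx hb (by rw [h2]; exact hb')
        have e2 := hL x' hx' hb' (by rw [← h1]; exact hb)
        rw [h2] at e1
        rw [← h1] at e2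
        omega
    · rcases DIST_pair h with ⟨h1, _⟩ | ⟨h1, h2⟩
      · exact h1
      · exfalso
        have e1 := hR x hx hb (by rw [h2]; exact hb')
        have e2 := hR x' hx' hb' (by rw [← h1]; exact hb)
        rw [h2] at e1
        rw [← h1] at e2
        omega
    · rcases DIST_pair h with ⟨h1, h2⟩ | ⟨h1, h2⟩
      · subst h1
        exact (hS.r x hx hb).2.1 h2.symm
      · have e1 := hL x hx hb (by rw [h2]; exact hb')
        have e2 := hR x' hx' hb' (by rw [← h1]; exact hb)
        rw [h2] at e1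
        rw [← h1] at e2
        omega
  · intro x hx y hy hb ht
    obtain ⟨_, hnb, _, _, hyL, hyR⟩ := hS.u y hy ht
    refine ⟨fun h => ?_, fun h => ?_⟩
    · rcases DIST_pair h with ⟨h1, h2⟩ | ⟨h1, h2⟩
      · apply hyL
        rw [← h1, h2]
      · subst h1
        have e1 := hL x hx hb (by rw [h2]; exact hnb)
        have e2 := hU x hx ht hb
        rw [h2] at e1
        omega
    · rcases DIST_pair h with ⟨h1, h2⟩ | ⟨h1, h2⟩
      · apply hyR
        rw [← h1, h2]
      · subst h1
        have e1 := hR x hx hb (by rw [h2]; exact hnb)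
        have e2 := hU x hx ht hb
        rw [h2] at e1
        omega
  · intro y hy y' hy' ht ht' h
    rcases DIST_pair h with ⟨_, h2⟩ | ⟨h1, h2⟩
    · exact h2
    · exfalso
      have n1 := (hS.u y hy ht).2.1
      have n2 := (hS.u y' hy' ht').2.1
      have e1 := hU y hy ht (by rw [h2]; exact n2)
      have e2 := hU y' hy' ht' (by rw [← h1]; exact n1)
      rw [h1] at e1
      rw [← h2] at e2
      omega

end Pool.Agent.helper57.PP
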