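import Pool.Agent.helper57.PP.Spec

/-!
# MP_974a61_co, row pp:DSC
-/

set_option autoImplicit false

namespace Pool.Agent.helper57.PP

open Finset

theorem DSC (h1 : DST_stmt) (h2 : DSJ_stmt) (h3 : ISO_stmt) (h4 : ZL_stmt) : DSC_stmt := by
  intro W _ G σ m p A hD hG hA
  obtain ⟨-, hper, hinj, -, -, -⟩ := h3 W G σ m p hD hG
  obtain ⟨z1, -, -, -, -, -, z7, z8, -, -⟩ := h4 W m p hG.m3 hper hinj
  obtain ⟨j1, j2⟩ := h2 W G σ m p A hD hG hA
  refine ⟨fun t ht => hD.surf.card3 t (hA.sub ht), fun e he => ?_, h1 W G σ m p A hD hG hA, z1,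
    List.cons_ne_nil _ _, ?_, ?_, j1, j2⟩
  · have hle : (cof A e).card ≤ (cof G e).card := Finset.card_le_card (cof_mono hA.sub e)
    by_cases hE : e ∈ edges G
    · rw [hD.surf.two e hE] at hle
      exact hle
    · rw [edges_iff_cof_nonempty he, Finset.not_nonempty_iff_eq_empty] at hE
      rw [hE, Finset.card_empty] at hle
      omega
  · simp
  · rw [hA.bdA]
    ext e
    rw [mem_union, z7, z8]
    simp only [zt, mem_image, mem_range]
    constructor
    · rintro ⟨i, hi, rfl⟩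
      by_cases him : i < m
      · exact Or.inl ⟨i, him, rfl⟩
      · exact Or.inr ⟨i, by omega, hi, rfl⟩
    · rintro (⟨i, hi, rfl⟩ | ⟨i, hi, hi2, rfl⟩)
      · exact ⟨i, by omega, rfl⟩
      · exact ⟨i, hi2, rfl⟩

end Pool.Agent.helper57.PP
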