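import Pool.Agent.helper36.PP.SpecM

set_option autoImplicit false

/-! # Project pp, MX: propagation backwards (helper19) -/

open Complex Metric Set Filter Topology MeasureTheory MPS MQ Pool.Agent.helper98.ILF

noncomputable section

namespace PPS

theorem MX_step (f : Polynomial ℂ) (a κ : ℂ → ℂ) (v : ℂ) (hf : 1 ≤ f.natDegree)
    (ha : Continuous a) (hrel : ∀ z, fd f z * a z = a (f.eval z) + κ (f.eval z))
    (h1 : ∀ᶠ z in 𝓝 (f.eval v), a z = 0) (h2 : ∀ᶠ z in 𝓝 (f.eval v), κ z = 0) :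
    ∀ᶠ z in 𝓝 v, a z = 0 := by
  have hc : Tendsto (fun z => f.eval z) (𝓝 v) (𝓝 (f.eval v)) := f.continuous.tendsto v
  have hd : f.derivative ≠ 0 := by
    intro h
    have h3 := Polynomial.natDegree_eq_zero_of_derivative_eq_zero h
    omega
  have h3 : ∀ᶠ z in 𝓝[≠] v, f.derivative.eval z ≠ 0 := by
    have hfin : ((f.derivative.roots.toFinset : Finset ℂ) : Set ℂ).Finite :=
      Finset.finite_toSet _
    have hopen : ((((f.derivative.roots.toFinset : Finset ℂ) : Set ℂ) \ {v})ᶜ) ∈ 𝓝 v := by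
      refine (hfin.subset diff_subset).isClosed.isOpen_compl.mem_nhds ?_
      simp
    filter_upwards [mem_nhdsWithin_of_mem_nhds hopen, self_mem_nhdsWithin] with z hz hzv h0
    apply hz
    refine ⟨?_, hzv⟩
    simp only [Finset.mem_coe, Multiset.mem_toFinset, Polynomial.mem_roots hd,
      Polynomial.IsRoot.def]
    exact h0
  have h4 : ∀ᶠ z in 𝓝[≠] v, a z = 0 := by
    filter_upwards [h3, mem_nhdsWithin_of_mem_nhds (hc.eventually h1),
      mem_nhdsWithin_of_mem_nhds (hc.eventually h2)] with z hz hz1 hz2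
    have h5 := hrel z
    have hz1' : a (f.eval z) = 0 := hz1
    have hz2' : κ (f.eval z) = 0 := hz2
    rw [hz1', hz2', add_zero] at h5
    exact (mul_eq_zero.1 h5).resolve_left hz
  have h5 : a v = 0 := by
    have h6 : Tendsto a (𝓝[≠] v) (𝓝 (a v)) := ha.continuousAt.tendsto.mono_left nhdsWithin_le_nhds
    have h7 : Tendsto a (𝓝[≠] v) (𝓝 0) :=
      (tendsto_congr' (h4.mono fun z hz => hz)).2 tendsto_const_nhds
    exact tendsto_nhds_unique h6 h7
  rw [eventually_nhdsWithin_iff] at h4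
  filter_upwards [h4] with z hz
  by_cases hzv : z = v
  · rw [hzv, h5]
  · exact hz hzv

theorem MX_all (f : Polynomial ℂ) (a κ : ℂ → ℂ) (hf : 1 ≤ f.natDegree)
    (ha : Continuous a) (hrel : ∀ z, fd f z * a z = a (f.eval z) + κ (f.eval z)) :
    ∀ (m₀ : ℕ) (v : ℂ), (∀ᶠ z in 𝓝 (it f m₀ v), a z = 0) →
      (∀ j, 1 ≤ j → j ≤ m₀ → ∀ᶠ z in 𝓝 (it f j v), κ z = 0) → ∀ᶠ z in 𝓝 v, a z = 0 := by
  intro m₀
  induction m₀ with
  | zero => exact fun v h _ => h
  | succ m ih =>
    intro v h hκ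
    apply MX_step f a κ v hf ha hrel
    · exact ih (f.eval v) h fun j hj hjm => hκ (j + 1) (by omega) (by omega)
    · exact hκ 1 le_rfl (by omega)

theorem MX : MX_stmt := by
  intro f a κ v m₀ hf ha hrel h hκ
  exact (MX_all f a κ hf ha hrel m₀ v h hκ).self_of_nhds

end PPS
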