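import Pool.Agent.helper57.PP.Spec

/-!
# MP_974a61_co, row pp:RM
-/

set_option autoImplicit false

namespace Pool.Agent.helper57.PP

open Finset

/-- a vertex without chords and without neighbours in `Bf` -/
theorem RM_exists (h1 : MC_stmt) {W : Type} [DecidableEq W] {T R : Finset (Finset W)} {a z : W}
    {bs ts : List W} {Bf : Finset W} {C : List W} {x : W} (hD : Disc T a z bs ts)
    (hS : St T a z bs R C) (hBf : ∀ b ∈ Bf, b ∈ pth a bs z) (hx : x ∈ C) (hxb : x ∉ pth a bs z)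
    (hxB : ∀ b ∈ Bf, {x, b} ∉ edges T) :
    ∃ v ∈ C, v ∉ pth a bs z ∧ (∀ b ∈ Bf, {v, b} ∉ edges T) ∧
      ∀ y' ∈ C, {v, y'} ∈ edges T → {v, y'} ∈ pe C := by
  by_cases hch : ∀ y' ∈ C, {x, y'} ∈ edges T → {x, y'} ∈ pe C
  · exact ⟨x, hx, hxb, hxB, hch⟩
  · push Not at hch
    obtain ⟨y', hy', hyT, hyC⟩ := hch
    have hR : {x, y'} ∈ edges R := by
      rcases hS.up x hx y' hy' hyT with h | h
      · exact h
      · exact absurd h hyC
    have hxBf : x ∉ Bf := fun h => hxb (hBf x h)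
    have hyBf : y' ∉ Bf := fun h => hxB y' h hyT
    obtain ⟨A1, C2, hC⟩ := List.append_of_mem hx
    have hne : y' ≠ x := (edges_ne hyT).symm
    rw [hC, List.mem_append, List.mem_cons] at hy'
    rcases hy' with hy' | hy' | hy'
    · obtain ⟨A0, M, hA1⟩ := List.append_of_mem hy'
      have hC' : C = A0 ++ y' :: (M ++ x :: C2) := by
        rw [hC, hA1]
        simp
      have hM : M ≠ [] := by
        rintro rfl
        apply hyC
        rw [mem_pe]
        exact ⟨A0, y', x, C2, by rw [hC']; rfl, Finset.pair_comm _ _⟩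
      obtain ⟨v, hv, hv1, hv2, hv3⟩ := h1 W T R a z bs ts Bf A0 y' M x C2 hD (hC' ▸ hS) hM
        (edges_comm hR) hBf hyBf hxBf
      refine ⟨v, ?_, hv1, hv2, ?_⟩
      · rw [hC']
        simp [hv]
      · rw [hC']
        exact hv3
    · exact absurd hy' hne
    · obtain ⟨M, B, hC2⟩ := List.append_of_mem hy'
      have hC' : C = A1 ++ x :: (M ++ y' :: B) := by
        rw [hC, hC2]
      have hM : M ≠ [] := by
        rintro rfl
        apply hyC
        rw [mem_pe]
        exact ⟨A1, x, y', B, by rw [hC']; rfl, rfl⟩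
      obtain ⟨v, hv, hv1, hv2, hv3⟩ := h1 W T R a z bs ts Bf A1 x M y' B hD (hC' ▸ hS) hM
        hR hBf hxBf hyBf
      refine ⟨v, ?_, hv1, hv2, ?_⟩
      · rw [hC']
        simp [hv]
      · rw [hC']
        exact hv3

/-- an interior vertex of a path has two neighbours on the path -/
theorem RM_split {W : Type} {C : List W} {a z v : W} {cs : List W} (hC : C = pth a cs z)
    (hv : v ∈ C) (ha : v ≠ a) (hz : v ≠ z) :
    ∃ (A : List W) (y0 yr : W) (B : List W), C = A ++ y0 :: v :: yr :: B := by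
  subst hC
  unfold pth at hv ⊢
  simp only [List.mem_cons, List.mem_append, List.not_mem_nil, or_false] at hv
  have hv' : v ∈ cs := by tauto
  obtain ⟨P, Q, rfl⟩ := List.append_of_mem hv'
  obtain ⟨A, y0, hA⟩ : ∃ (A : List W) (y0 : W), a :: P = A ++ [y0] := by
    rcases List.eq_nil_or_concat (a :: P) with h | ⟨A, y0, h⟩
    · exact absurd h (List.cons_ne_nil _ _)
    · exact ⟨A, y0, by simpa using h⟩
  obtain ⟨yr, B, hB⟩ : ∃ (yr : W) (B : List W), Q ++ [z] = yr :: B := by
    cases Q with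
    | nil => exact ⟨z, [], rfl⟩
    | cons q Q => exact ⟨q, Q ++ [z], rfl⟩
  refine ⟨A, y0, yr, B, ?_⟩
  calc a :: ((P ++ v :: Q) ++ [z]) = (a :: P) ++ v :: (Q ++ [z]) := by simp
    _ = A ++ y0 :: v :: yr :: B := by rw [hA, hB]; simp

theorem RM (h1 : MC_stmt) (h2 : FAN_stmt) (h3 : REM_stmt) : RM_stmt := by
  intro W _ T R a z bs ts Bf C x hD hS hBf hx hxb hxB
  obtain ⟨v, hvC, hvb, hvB, hvch⟩ := RM_exists h1 hD hS hBf hx hxb hxB
  obtain ⟨cs, hcs⟩ := hS.ends
  have ha : v ≠ a := by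
    rintro rfl
    exact hvb (by simp [pth])
  have hz : v ≠ z := by
    rintro rfl
    exact hvb (by simp [pth])
  obtain ⟨A, y0, yr, B, hC⟩ := RM_split hcs hvC ha hz
  have hS' : St T a z bs R (A ++ y0 :: v :: yr :: B) := hC ▸ hS
  have hnb : ∀ y ∈ A ++ y0 :: v :: yr :: B, {v, y} ∈ edges T → y = y0 ∨ y = yr := by
    intro y hy hyT
    have hyC : ({v, y} : Finset W) ∈ pe (A ++ y0 :: v :: yr :: B) := by
      rw [← hC]
      exact hvch y (by rw [hC]; exact hy) hyT
    have hne : y ≠ v := (edges_ne hyT).symm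
    have hym : y ∈ ({v, y} : Finset W) := by simp
    rcases pe_at hS'.nd hyC (by simp) with h | h
    · rw [h] at hym
      simp only [mem_insert, mem_singleton] at hym
      tauto
    · rw [h] at hym
      simp only [mem_insert, mem_singleton] at hym
      tauto
  obtain ⟨mid, hm1, hm2, hm3⟩ := h2 W T R a z bs ts A y0 v yr B hD hS' hvb hnb
  refine ⟨A, y0, v, yr, B, mid, hC, hvb, hvB, hm1, hm2, ?_, ?_⟩
  · rw [hC]
    exact hm3
  · exact h3 W T R a z bs ts A y0 v yr B mid hD hS' hvb hm1 hm2 hm3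

end Pool.Agent.helper57.PP
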