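import Pool.Agent.helper36.PP.SpecC

set_option autoImplicit false

/-! # Project pp, SEQ2: all levels of Phase 2 (helper19) -/

open Complex Metric Set Filter Topology MeasureTheory MPS

noncomputable section

namespace PPS

theorem SEQ2_fail {f : Polynomial ℂ} {y ρ₁ : ℝ} {χ : ℂ → ℂ} {G1 : ℕ → ℂ → ℂ} {ps : ℕ}
    {G G' : ℕ → ℂ → ℂ} {q : ℕ} {r : ℝ} (h : G' q = G q)
    (hf : Fail2 f y ρ₁ χ G1 ps G q r) : Fail2 f y ρ₁ χ G1 ps G' q r := by
  unfold Fail2 at hf ⊢
  rw [h]
  exact hf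

theorem SEQ2_sub {y ρ₁ : ℝ} (h0 : 0 < ρ₁) :
    ball (ctr y ρ₁) (9 * ρ₁ / 8) ⊆ ball ((y : ℂ) * I) (16 * ρ₁) := by
  apply ball_subset_ball'
  have h : dist (ctr y ρ₁) ((y : ℂ) * I) = ρ₁ / 4 := by
    unfold ctr
    rw [dist_eq_norm, sub_sub_cancel_left, norm_neg]
    have h1 : ((ρ₁ : ℂ) / 4) = ((ρ₁ / 4 : ℝ) : ℂ) := by push_cast; ring
    rw [h1, Complex.norm_real, Real.norm_of_nonneg (by positivity)]
  rw [h]
  linarith

theorem SEQ2_HP {y ρ₁ : ℝ} (h0 : 0 < ρ₁) : ctr y ρ₁ ∈ HP 0 := by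
  unfold ctr HP
  have h1 : ((ρ₁ : ℂ) / 4) = ((ρ₁ / 4 : ℝ) : ℂ) := by push_cast; ring
  rw [h1]
  simp only [mem_setOf_eq, Complex.sub_re, Complex.mul_re, Complex.ofReal_re, Complex.I_re,
    mul_zero, Complex.ofReal_im, Complex.I_im, mul_one, sub_self, neg_zero]
  linarith

theorem SEQ2 (hS : STEP2_stmt) : SEQ2_stmt := by
  intro n k _ f b g ψ ra R ε y ρ₁ χ G1 ps hSU hε
  have h0 := hSU.r0
  have key : ∀ Q : ℕ, Q ≤ k → ∃ (T : ℕ → ℝ) (G : ℕ → ℂ → ℂ),
      H2 n k f b g ψ ra R ε y ρ₁ χ G1 ps T G Q ∧ T 0 = 9 * ρ₁ / 8 ∧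
      ∀ q < Q, ∀ r, T (q + 1) < r → r < T q → Fail2 f y ρ₁ χ G1 ps G q r := by
    intro Q
    induction Q with
    | zero =>
      intro _
      refine ⟨fun _ => 9 * ρ₁ / 8, fun _ => χ, ⟨hSU, ?_, Nat.zero_le _⟩, rfl,
        fun q hq => absurd hq (Nat.not_lt_zero _)⟩
      exact
        { t0 := le_rfl
          anti := fun q hq => absurd hq (Nat.not_lt_zero _)
          low := fun q _ => by linarith
          g0 := rfl
          diff := fun q _ => hSU.nat.diff.mono ((SEQ2_sub h0).trans subset_union_right)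
          rel := fun q hq => absurd hq (Nat.not_lt_zero _)
          val := fun q hq => by
            have hq0 : q = 0 := Nat.le_zero.1 hq
            subst hq0
            rw [hSU.ext (SEQ2_HP h0), hSU.s1.g0]
            rfl
          disj := fun q _ hq => absurd hq (Nat.not_lt_zero _) }
    | succ Q ih =>
      intro hQ
      obtain ⟨T, G, hH, hT0, hf⟩ := ih (Nat.le_of_succ_le hQ)
      obtain ⟨t', g', hH', hf'⟩ := hS n k f b g ψ ra R ε y ρ₁ χ G1 ps T G Q hH hQ hε
      refine ⟨Function.update T (Q + 1) t', Function.update G (Q + 1) g', hH', ?_, ?_⟩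
      · rw [Function.update_of_ne (Nat.succ_ne_zero Q).symm]
        exact hT0
      · intro q hq r h2 h3
        have e1 : Function.update T (Q + 1) t' q = T q := Function.update_of_ne (by omega) _ _
        have e2 : Function.update G (Q + 1) g' q = G q := Function.update_of_ne (by omega) _ _
        rw [e1] at h3
        apply SEQ2_fail e2
        rcases Nat.lt_succ_iff_lt_or_eq.1 hq with hq' | hq'
        · have e3 : Function.update T (Q + 1) t' (q + 1) = T (q + 1) :=
            Function.update_of_ne (by omega) _ _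
          rw [e3] at h2
          exact hf q hq' r h2 h3
        · subst hq'
          rw [Function.update_self] at h2
          exact hf' r h2 h3
  exact key k le_rfl

end PPS
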